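import Pool.Agent.Helper5.NX2.RatlCore
import Pool.Agent.Helper25.NX2.Weyl

/-!
# Project NX2, A5: phases with large window sums
-/

set_option autoImplicit false

open Finset
open scoped BigOperators ComplexConjugate

namespace Pool.Agent.Helper67.NX2

open Pool.Agent.Helper57.NX

theorem ratl (hES : ES0) {m : ℕ} (c : Fin m → ℝ) (hc : StrictMono c) (hc0 : ∀ i, 0 < c i)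
    (a ε : ℝ) (hε : 0 < ε) :
    ∃ x0 : ℝ, 0 < x0 ∧ ∃ C : ℕ, ∃ σ : ℝ, 0 < σ ∧ ∃ D0 : ℝ, ∀ D : ℝ, D0 ≤ D →
    ∀ ρ : ℝ, 0 ≤ ρ → ρ ≤ 1 → ∀ lam : ℕ, 1 ≤ lam → (∃ r : ℕ, ρ * lam = r) →
    ∀ δ : ℝ, D ^ (-σ) ≤ δ → δ ≤ 1 / 2 → (lam : ℝ) ≤ δ⁻¹ →
    ∀ v : Fin m → ℝ, (∀ i, |v i| ≤ D ^ a) →
    ∀ q k K : ℕ, 1 ≤ q → (q : ℝ) ≤ δ⁻¹ → D ≤ k → (k : ℝ) ≤ 3 * D → D ^ (1 - x0) ≤ K →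
    (q : ℝ) * K ≤ D →
    δ ≤ ‖𝔼 j ∈ range K, e (∑ i, v i * ((((k + q * j : ℕ) : ℝ) + ρ) / D) ^ (c i))‖ →
    (∀ i, ¬ IsN (c i) → |v i| ≤ D ^ ε) ∧
    ∃ q' : ℕ, 1 ≤ q' ∧ (q' : ℝ) ≤ δ⁻¹ ^ C ∧ ∀ (i : Fin m) (d : ℕ), c i = d →
      dint (q' * (v i / (lam * D) ^ d)) ≤ D ^ (ε - d) :=
  rt5_ratl weyl hES c hc hc0 a ε hε

end Pool.Agent.Helper67.NX2
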