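import Pool.Agent.Helper67.NX2.Defs
import Pool.Agent.Helper5.NX.Basic
import Pool.Agent.Helper55.NX2.AqBasic
import Pool.Agent.Helper87.NX2.Dil
import Pool.Agent.Helper7.NX2.EsMixed

/-!
# Project NX2, A5: phases with large window sums (from Weyl's inequality as hypothesis)
-/

set_option autoImplicit false

open Finset
open scoped BigOperators ComplexConjugate

namespace Pool.Agent.Helper67.NX2

open Pool.Agent.Helper57.NX

noncomputable section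

/-! ### powers of `D` -/

theorem rt5_big (c0 τ : ℝ) (hτ : 0 < τ) : ∃ D0 : ℝ, 1 < D0 ∧ ∀ D : ℝ, D0 ≤ D → c0 ≤ D ^ τ := by
  have h := (tendsto_rpow_atTop hτ).eventually_ge_atTop c0
  obtain ⟨b, hb⟩ := Filter.eventually_atTop.mp h
  refine ⟨max b 2, lt_of_lt_of_le one_lt_two (le_max_right _ _), fun D hD => hb D ?_⟩
  exact le_trans (le_max_left _ _) hD

theorem rt5_inv {D σ δ : ℝ} (hD : 0 < D) (h : D ^ (-σ) ≤ δ) (C : ℕ) :
    δ⁻¹ ^ C ≤ D ^ ((C : ℝ) * σ) := by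
  have h0 : 0 < D ^ (-σ) := Real.rpow_pos_of_pos hD _
  have h1 : δ⁻¹ ≤ D ^ σ := by
    have h2 : δ⁻¹ ≤ (D ^ (-σ))⁻¹ := inv_anti₀ h0 h
    rwa [Real.rpow_neg hD.le, inv_inv] at h2
  have hδ : 0 < δ := lt_of_lt_of_le h0 h
  calc δ⁻¹ ^ C ≤ (D ^ σ) ^ C := pow_le_pow_left₀ (inv_pos.mpr hδ).le h1 C
    _ = D ^ ((C : ℝ) * σ) := by
      rw [← Real.rpow_natCast, ← Real.rpow_mul hD.le]
      congr 1
      ring

theorem rt5_floor {x : ℝ} (hx : 1 ≤ x) :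
    1 ≤ ⌊x⌋₊ ∧ ((⌊x⌋₊ : ℕ) : ℝ) ≤ x ∧ x ≤ 2 * (⌊x⌋₊ : ℕ) := by
  have h1 : 1 ≤ ⌊x⌋₊ := (Nat.one_le_floor_iff _).mpr hx
  refine ⟨h1, Nat.floor_le (by linarith), ?_⟩
  have h2 := Nat.lt_floor_add_one x
  have h3 : (1 : ℝ) ≤ (⌊x⌋₊ : ℕ) := by exact_mod_cast h1
  linarith

/-! ### windows and constant phases -/

theorem rt5_win (K Q J : ℕ) (η : ℝ) (hη : 0 < η) (hQ : 1 ≤ Q) (hJ : 1 ≤ J)
    (hQJ : 4 * (Q : ℝ) * J ≤ η * K) (G : ℕ → ℂ) (hG : ∀ k, ‖G k‖ ≤ 1)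
    (h : η ≤ ‖𝔼 k ∈ range K, G k‖) :
    ∃ h0 : ℕ, h0 + Q * J ≤ K ∧ η / 2 ≤ ‖𝔼 j ∈ range J, G (h0 + Q * j)‖ := by
  let S : Sys 0 := ⟨1, 0, 1, 0, K, fun _ => 0⟩
  have hSI : S.I = range K := by
    show Ico 0 (0 + K) = range K
    rw [zero_add, range_eq_Ico]
  obtain ⟨r0, u', hr, h1, h2, h3⟩ := exists_window S η Q J hQ hJ hQJ G hG (by rw [hSI]; exact h) hη
  refine ⟨Q * u' + r0, ?_, ?_⟩
  · have h4 : Q * (u' + J) + r0 ≤ 0 + K := h2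
    rw [mul_add] at h4
    omega
  · have h5 : 𝔼 j ∈ Ico u' (u' + J), G (Q * j + r0) =
        𝔼 j ∈ range J, G (Q * u' + r0 + Q * j) := by
      rw [expect_eq_sum_div_card, expect_eq_sum_div_card, Nat.card_Ico, card_range,
        sum_Ico_eq_sum_range]
      have e1 : u' + J - u' = J := by omega
      rw [e1]
      congr 1
      refine sum_congr rfl fun j _ => ?_
      congr 1
      ring
    rw [← h5]
    exact h3

theorem rt5_drop (J : ℕ) (z : ℕ → ℂ) (hz : ∀ j, ‖z j‖ ≤ 1) (φ : ℕ → ℝ) (φ0 η : ℝ) (hη : 0 ≤ η)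
    (h : ∀ j < J, ∃ n : ℤ, |φ j - φ0 - n| ≤ η) :
    ‖𝔼 j ∈ range J, z j * e (φ j)‖ ≤ ‖𝔼 j ∈ range J, z j‖ + 2 * Real.pi * η := by
  have h1 : 𝔼 j ∈ range J, z j * e (φ j) =
      (𝔼 j ∈ range J, z j) * e φ0 + 𝔼 j ∈ range J, z j * (e (φ j) - e φ0) := by
    rw [expect_mul, ← expect_add_distrib]
    refine expect_congr rfl fun j _ => ?_
    ring
  have h2 : ‖𝔼 j ∈ range J, z j * (e (φ j) - e φ0)‖ ≤ 2 * Real.pi * η := by
    refine norm_expect_le_of5 _ _ (by positivity) fun j hj => ?_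
    obtain ⟨n, hn⟩ := h j (mem_range.mp hj)
    have e1 : e φ0 = e (φ0 + n) := by rw [e_add, e_int, mul_one]
    rw [norm_mul, e1]
    have h3 := norm_e_sub_e_le (φ j) (φ0 + n)
    have h4 : |φ j - (φ0 + n)| ≤ η := by
      have : φ j - (φ0 + n) = φ j - φ0 - n := by ring
      rw [this]; exact hn
    have h5 : ‖e (φ j) - e (φ0 + n)‖ ≤ 2 * Real.pi * η :=
      h3.trans (mul_le_mul_of_nonneg_left h4 (by positivity))
    calc ‖z j‖ * ‖e (φ j) - e (φ0 + n)‖ ≤ 1 * (2 * Real.pi * η) :=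
          mul_le_mul (hz j) h5 (norm_nonneg _) zero_le_one
      _ = 2 * Real.pi * η := one_mul _
  rw [h1]
  refine (norm_add_le _ _).trans ?_
  rw [norm_mul, norm_e, mul_one]
  linarith

/-! ### polynomial phases -/

/-- the polynomial -/
def rt5P (n : ℕ) (w : ℕ → ℝ) (M B : ℕ) : Polynomial ℝ :=
  ∑ d ∈ Icc 1 n, Polynomial.C (w d) *
    (Polynomial.C (M : ℝ) * Polynomial.X + Polynomial.C (B : ℝ)) ^ d

theorem rt5P_eval (n : ℕ) (w : ℕ → ℝ) (M B : ℕ) (x : ℝ) :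
    (rt5P n w M B).eval x = ∑ d ∈ Icc 1 n, w d * ((M : ℝ) * x + B) ^ d := by
  unfold rt5P
  rw [Polynomial.eval_finsetSum]
  refine sum_congr rfl fun d _ => ?_
  simp

theorem rt5P_deg (n : ℕ) (w : ℕ → ℝ) (M B : ℕ) : (rt5P n w M B).natDegree ≤ n := by
  unfold rt5P
  refine Polynomial.natDegree_sum_le_of_forall_le _ _ fun d hd => ?_
  have h1 : (Polynomial.C (M : ℝ) * Polynomial.X + Polynomial.C (B : ℝ)).natDegree ≤ 1 :=
    Polynomial.natDegree_linear_le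
  calc _ ≤ ((Polynomial.C (M : ℝ) * Polynomial.X + Polynomial.C (B : ℝ)) ^ d).natDegree :=
        Polynomial.natDegree_C_mul_le _ _
    _ ≤ d * 1 := Polynomial.natDegree_pow_le_of_le _ h1
    _ ≤ n := by rw [mul_one]; exact (mem_Icc.mp hd).2

theorem rt5P_coeff (n : ℕ) (w : ℕ → ℝ) (M B : ℕ) :
    (rt5P (n + 1) w M B).coeff (n + 1) = w (n + 1) * (M : ℝ) ^ (n + 1) := by
  have h1 : (Polynomial.C (M : ℝ) * Polynomial.X + Polynomial.C (B : ℝ)).natDegree ≤ 1 :=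
    Polynomial.natDegree_linear_le
  have h2 : rt5P (n + 1) w M B = rt5P n w M B + Polynomial.C (w (n + 1)) *
    (Polynomial.C (M : ℝ) * Polynomial.X + Polynomial.C (B : ℝ)) ^ (n + 1) := by
    unfold rt5P
    rw [sum_Icc_succ_top (by omega)]
  rw [h2, Polynomial.coeff_add, Polynomial.coeff_eq_zero_of_natDegree_lt
    (lt_of_le_of_lt (rt5P_deg n w M B) (Nat.lt_succ_self n)), zero_add, Polynomial.coeff_C_mul]
  congr 1
  have h3 := Polynomial.coeff_pow_of_natDegree_le (m := n + 1) h1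
  rw [mul_one] at h3
  rw [h3]
  congr 1
  simp

/-- the arithmetic of the top term -/
theorem rt5_top (n : ℕ) (w θ : ℝ) (A : ℤ) (Q x y : ℕ) (hQ : 1 ≤ Q) (hA : Q * w = A + θ)
    (hxy : (Q : ℤ) ∣ (y : ℤ) - x) :
    ∃ k : ℤ, w * (y : ℝ) ^ n - w * (x : ℝ) ^ n - k = θ / Q * ((y : ℝ) ^ n - (x : ℝ) ^ n) := by
  have hQ0 : (Q : ℝ) ≠ 0 := by
    have : (0 : ℝ) < Q := by exact_mod_cast hQ
    exact this.ne'
  obtain ⟨k0, hk0⟩ : (Q : ℤ) ∣ (y : ℤ) ^ n - (x : ℤ) ^ n := hxy.trans (sub_dvd_pow_sub_pow _ _ n)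
  refine ⟨A * k0, ?_⟩
  have h1 : (y : ℝ) ^ n - (x : ℝ) ^ n = Q * k0 := by exact_mod_cast hk0
  have h2 : w = (A + θ) / Q := by
    rw [← hA]; field_simp
  have h3 : w * (y : ℝ) ^ n - w * (x : ℝ) ^ n = w * ((y : ℝ) ^ n - (x : ℝ) ^ n) := by ring
  push_cast
  rw [h3, h1, h2]
  field_simp
  ring

/-- `y^(n+1) - x^(n+1) ≤ (n+1) (y-x) Z^n` -/
theorem rt5_powdiff (n : ℕ) {x y Z : ℝ} (hx : 0 ≤ x) (hxy : x ≤ y) (hy : y ≤ Z) :
    |y ^ (n + 1) - x ^ (n + 1)| ≤ (n + 1) * (y - x) * Z ^ n := by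
  have h0 : x ^ (n + 1) ≤ y ^ (n + 1) := pow_le_pow_left₀ hx hxy _
  rw [abs_of_nonneg (by linarith)]
  have h1 : y ^ (n + 1) - x ^ (n + 1) = (y - x) * ∑ i ∈ range (n + 1), x ^ i * y ^ (n - i) := by
    have := (Commute.all x y).mul_geom_sum₂ (n + 1)
    have h2 := (Commute.all y x).mul_geom_sum₂ (n + 1)
    have h3 : ∑ i ∈ range (n + 1), x ^ i * y ^ (n - i) =
        ∑ i ∈ range (n + 1), x ^ i * y ^ (n + 1 - 1 - i) := by simp
    rw [h3]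
    linarith
  rw [h1]
  have h2 : ∑ i ∈ range (n + 1), x ^ i * y ^ (n - i) ≤ (n + 1) * Z ^ n := by
    calc ∑ i ∈ range (n + 1), x ^ i * y ^ (n - i) ≤ ∑ i ∈ range (n + 1), Z ^ n := by
          refine sum_le_sum fun i hi => ?_
          have hi' : i ≤ n := by have := mem_range.mp hi; omega
          have hy0 : 0 ≤ y := hx.trans hxy
          calc x ^ i * y ^ (n - i) ≤ Z ^ i * Z ^ (n - i) :=
                mul_le_mul (pow_le_pow_left₀ hx (hxy.trans hy) _)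
                  (pow_le_pow_left₀ hy0 hy _) (pow_nonneg hy0 _)
                  (pow_nonneg (hy0.trans hy) _)
            _ = Z ^ n := by rw [← pow_add]; congr 1; omega
      _ = (n + 1) * Z ^ n := by simp
  calc (y - x) * ∑ i ∈ range (n + 1), x ^ i * y ^ (n - i) ≤ (y - x) * ((n + 1) * Z ^ n) :=
        mul_le_mul_of_nonneg_left h2 (by linarith)
    _ = (n + 1) * (y - x) * Z ^ n := by ring

theorem rt5_mul {D a b X Y : ℝ} (hD : 0 < D) (hX : X ≤ D ^ a) (hY0 : 0 ≤ Y) (hY : Y ≤ D ^ b) :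
    X * Y ≤ D ^ (a + b) := by
  rw [Real.rpow_add hD]
  exact mul_le_mul hX hY hY0 (Real.rpow_nonneg hD.le _)

theorem rt5_le {D a b X : ℝ} (hD : 1 ≤ D) (hX : X ≤ D ^ a) (hab : a ≤ b) : X ≤ D ^ b :=
  hX.trans (Real.rpow_le_rpow_of_exponent_le hD hab)

theorem rt5_pow {D a X : ℝ} (hD : 0 < D) (hX0 : 0 ≤ X) (hX : X ≤ D ^ a) (n : ℕ) :
    X ^ n ≤ D ^ ((n : ℝ) * a) := by
  calc X ^ n ≤ (D ^ a) ^ n := pow_le_pow_left₀ hX0 hX n
    _ = D ^ ((n : ℝ) * a) := by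
      rw [← Real.rpow_natCast, ← Real.rpow_mul hD.le]
      congr 1
      ring

/-- Weyl's inequality (module A4) as a statement -/
def rt5Weyl : Prop := ∀ d : ℕ, 1 ≤ d → ∃ C : ℕ, ∀ δ : ℝ, 0 < δ → δ ≤ 1 / 2 → ∀ K : ℕ,
    δ⁻¹ ^ C ≤ K → ∀ p : Polynomial ℝ, p.natDegree ≤ d →
    δ ≤ ‖𝔼 j ∈ range K, e (p.eval (j : ℝ))‖ →
    ∃ q : ℕ, 1 ≤ q ∧ (q : ℝ) ≤ δ⁻¹ ^ C ∧ dint (q * p.coeff d) ≤ δ⁻¹ ^ C / (K : ℝ) ^ d

/-- the statement for polynomial phases -/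
def rt5PL (n : ℕ) : Prop :=
  ∀ κ : ℝ, 0 < κ → ∃ κ0 : ℝ, 0 < κ0 ∧ ∃ C : ℕ, ∃ σ : ℝ, 0 < σ ∧ ∃ D0 : ℝ, 1 < D0 ∧
  ∀ D : ℝ, D0 ≤ D → ∀ δ : ℝ, D ^ (-σ) ≤ δ → δ ≤ 1 / 2 →
  ∀ M B K : ℕ, 1 ≤ M → (M : ℝ) ≤ δ⁻¹ → (B : ℝ) ≤ δ⁻¹ * D →
  D ^ (1 - κ0) ≤ K → (K : ℝ) ≤ D → ∀ w : ℕ → ℝ,
  δ ≤ ‖𝔼 h ∈ range K, e (∑ d ∈ Icc 1 n, w d * ((M : ℝ) * (h : ℝ) + B) ^ d)‖ →
  ∃ q : ℕ, 1 ≤ q ∧ (q : ℝ) ≤ δ⁻¹ ^ C ∧ ∀ d ∈ Icc 1 n, dint (q * w d) ≤ D ^ (κ - d)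

theorem rt5PL_zero : rt5PL 0 := by
  intro κ hκ
  refine ⟨1, one_pos, 0, 1, one_pos, 2, by norm_num, ?_⟩
  intro D hD δ hδ1 hδ2 M B K hM hM2 hB hK1 hK2 w h
  refine ⟨1, le_rfl, by simp, ?_⟩
  intro d hd
  have := mem_Icc.mp hd
  omega

theorem rt5PL_succ (hWeyl : rt5Weyl) (n : ℕ) (ih : rt5PL n) : rt5PL (n + 1) := by
  intro κ hκ
  obtain ⟨κ0', hκ0', C', σ', hσ', D0', hD0', IH⟩ := ih (κ / 2) (by linarith)
  obtain ⟨C1, hweyl⟩ := hWeyl (n + 1) (by omega)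
  -- parameters
  obtain ⟨κ2, hκ2, hκ2a, hκ2b⟩ : ∃ κ2 : ℝ, 0 < κ2 ∧ 2 * κ2 ≤ κ0' ∧ κ2 ≤ 1 / 2 :=
    ⟨min (κ0' / 2) (1 / 2), lt_min (by linarith) (by norm_num),
      by linarith [min_le_left (κ0' / 2) (1 / 2)], min_le_right _ _⟩
  have hn1 : (1 : ℝ) ≤ (n : ℝ) + 1 := by
    have : (0 : ℝ) ≤ n := Nat.cast_nonneg _
    linarith
  obtain ⟨κ0, hκ0, hκ0a, hκ0b⟩ : ∃ κ0 : ℝ, 0 < κ0 ∧ (n + 1) * κ0 ≤ κ2 / 4 ∧
      (n + 1) * κ0 ≤ κ / 4 := by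
    refine ⟨min κ2 κ / (4 * (n + 1)), div_pos (lt_min hκ2 hκ) (by positivity), ?_, ?_⟩
    · have h1 : (n + 1) * (min κ2 κ / (4 * (n + 1))) = min κ2 κ / 4 := by
        field_simp
      rw [h1]
      linarith [min_le_left κ2 κ]
    · have h1 : (n + 1) * (min κ2 κ / (4 * (n + 1))) = min κ2 κ / 4 := by
        field_simp
      rw [h1]
      linarith [min_le_right κ2 κ]
  have hκ0c : κ0 ≤ κ2 / 4 := by nlinarith
  set C2 : ℕ := C1 + n + 3 with hC2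
  set C : ℕ := C1 + n + 1 + C2 * C' with hC
  set W : ℕ := C2 * (C' + 1) + C1 + n + 3 with hW
  have hW1 : (1 : ℝ) ≤ (W : ℝ) := by
    have : 1 ≤ W := by omega
    exact_mod_cast this
  obtain ⟨σ, hσ, hσa, hσb, hσc, hσd⟩ : ∃ σ : ℝ, 0 < σ ∧ W * σ ≤ σ' / 4 ∧ W * σ ≤ κ2 / 4 ∧
      W * σ ≤ κ / 4 ∧ W * σ ≤ 1 / 4 := by
    refine ⟨min (min σ' κ2) (min κ 1) / (4 * W), div_pos (lt_min (lt_min hσ' hκ2)
      (lt_min hκ one_pos)) (by positivity), ?_⟩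
    have h1 : W * (min (min σ' κ2) (min κ 1) / (4 * W)) = min (min σ' κ2) (min κ 1) / 4 := by
      field_simp
    rw [h1]
    have h2 : min (min σ' κ2) (min κ 1) ≤ σ' := (min_le_left _ _).trans (min_le_left _ _)
    have h3 : min (min σ' κ2) (min κ 1) ≤ κ2 := (min_le_left _ _).trans (min_le_right _ _)
    have h4 : min (min σ' κ2) (min κ 1) ≤ κ := (min_le_right _ _).trans (min_le_left _ _)
    have h5 : min (min σ' κ2) (min κ 1) ≤ 1 := (min_le_right _ _).trans (min_le_right _ _)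
    refine ⟨by linarith, by linarith, by linarith, by linarith⟩
  have hE : ∀ E : ℕ, E ≤ W → (E : ℝ) * σ ≤ W * σ := fun E hEW =>
    mul_le_mul_of_nonneg_right (by exact_mod_cast hEW) hσ.le
  obtain ⟨D1, hD1, hbig⟩ := rt5_big (8 * Real.pi * (n + 1) * 2 ^ n) (κ2 / 4) (by linarith)
  refine ⟨κ0, hκ0, C, σ, hσ, max D0' D1, lt_of_lt_of_le hD0' (le_max_left _ _), ?_⟩
  intro D hDD δ hδ1 hδ2 M B K hM1 hM2 hB hK1 hK2 w h
  have hDD0 : D0' ≤ D := (le_max_left _ _).trans hDD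
  have hDD1 : D1 ≤ D := (le_max_right _ _).trans hDD
  have hD : 1 < D := lt_of_lt_of_le hD1 hDD1
  have hD' : 1 ≤ D := hD.le
  have hDp : 0 < D := by linarith
  have hδ : 0 < δ := lt_of_lt_of_le (Real.rpow_pos_of_pos hDp _) hδ1
  have hδi : 2 ≤ δ⁻¹ := by
    rw [le_inv_comm₀ (by norm_num) hδ]; linarith
  have hδi0 : 0 < δ⁻¹ := inv_pos.mpr hδ
  have hδi1 : 1 ≤ δ⁻¹ := by linarith
  have hpow : ∀ E : ℕ, E ≤ W → δ⁻¹ ^ E ≤ D ^ ((E : ℝ) * σ) := fun E _ => rt5_inv hDp hδ1 E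
  have hc8 := hbig D hDD1
  have hpi : (3 : ℝ) < Real.pi := Real.pi_gt_three
  have h2n : (1 : ℝ) ≤ 2 ^ n := one_le_pow₀ (by norm_num)
  have hc4 : (4 : ℝ) ≤ D ^ (κ2 / 4) := by
    refine le_trans ?_ hc8
    have h1 : 24 ≤ 8 * Real.pi := by linarith
    have h2 : (24 : ℝ) ≤ 8 * Real.pi * (n + 1) := by nlinarith
    nlinarith
  -- Weyl
  have hK0 : (0 : ℝ) < K := lt_of_lt_of_le (Real.rpow_pos_of_pos hDp _) hK1
  obtain ⟨q1, hq1, hq1C, hq1d⟩ := hweyl δ hδ hδ2 K (by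
    have h1 := hpow C1 (by omega)
    have h2 := hE C1 (by omega)
    refine le_trans (rt5_le hD' h1 ?_) hK1
    linarith) (rt5P (n + 1) w M B) (rt5P_deg _ _ _ _) (by
      refine h.trans (le_of_eq ?_)
      congr 1
      refine expect_congr rfl fun j _ => ?_
      rw [rt5P_eval])
  rw [rt5P_coeff] at hq1d
  have hM0 : (1 : ℝ) ≤ (M : ℝ) := by exact_mod_cast hM1
  set Q2 : ℕ := q1 * M ^ (n + 1) with hQ2
  have hQ21 : 1 ≤ Q2 := Nat.one_le_iff_ne_zero.mpr (by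
    have : 0 < M ^ (n + 1) := pow_pos (by omega) _
    have h3 : 0 < q1 * M ^ (n + 1) := Nat.mul_pos (by omega) this
    omega)
  have hQ2r : (1 : ℝ) ≤ (Q2 : ℝ) := by exact_mod_cast hQ21
  have hQ2b : (Q2 : ℝ) ≤ δ⁻¹ ^ (C1 + n + 1) := by
    rw [hQ2]
    push_cast
    rw [show C1 + n + 1 = C1 + (n + 1) by ring, pow_add δ⁻¹ C1 (n + 1)]
    exact mul_le_mul hq1C (pow_le_pow_left₀ (by positivity) hM2 _) (by positivity) (by positivity)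
  obtain ⟨A, hA⟩ : ∃ A : ℤ, A = round ((Q2 : ℝ) * w (n + 1)) := ⟨_, rfl⟩
  obtain ⟨θ, hθ⟩ : ∃ θ : ℝ, θ = (Q2 : ℝ) * w (n + 1) - A := ⟨_, rfl⟩
  have hθb : |θ| ≤ δ⁻¹ ^ C1 / (K : ℝ) ^ (n + 1) := by
    have h1 : |θ| = dint (q1 * (w (n + 1) * (M : ℝ) ^ (n + 1))) := by
      unfold dint
      have h2 : (q1 : ℝ) * (w (n + 1) * (M : ℝ) ^ (n + 1)) = (Q2 : ℝ) * w (n + 1) := by
        rw [hQ2]; push_cast; ring
      rw [h2, hθ, hA]
    rw [h1]; exact hq1d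
  have hθD : |θ| ≤ D ^ ((C1 : ℝ) * σ + -((n + 1) * (1 - κ0))) := by
    refine hθb.trans ?_
    have h1 : (D ^ (1 - κ0)) ^ (n + 1) ≤ (K : ℝ) ^ (n + 1) :=
      pow_le_pow_left₀ (Real.rpow_nonneg hDp.le _) hK1 _
    have h2 : (D ^ (1 - κ0)) ^ (n + 1) = D ^ ((n + 1) * (1 - κ0)) := by
      rw [← Real.rpow_natCast, ← Real.rpow_mul hDp.le]
      congr 1
      push_cast
      ring
    rw [h2] at h1
    have h3 : 0 < D ^ ((n + 1) * (1 - κ0)) := Real.rpow_pos_of_pos hDp _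
    calc δ⁻¹ ^ C1 / (K : ℝ) ^ (n + 1) ≤ D ^ ((C1 : ℝ) * σ) / D ^ ((n + 1) * (1 - κ0)) :=
          div_le_div₀ (Real.rpow_nonneg hDp.le _) (hpow C1 (by omega)) h3 h1
      _ = D ^ ((C1 : ℝ) * σ + -((n + 1) * (1 - κ0))) := by
          rw [Real.rpow_add hDp, Real.rpow_neg hDp.le, div_eq_mul_inv]
  -- the window
  have hx1 : (1 : ℝ) ≤ D ^ (1 - κ2) := Real.one_le_rpow hD' (by linarith)
  obtain ⟨hJ1, hJ2, hJ3⟩ := rt5_floor hx1
  set J : ℕ := ⌊D ^ (1 - κ2)⌋₊ with hJ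
  have hJ0 : (0 : ℝ) ≤ (J : ℝ) := Nat.cast_nonneg _
  have hQJ : 4 * (Q2 : ℝ) * J ≤ δ * K := by
    have h1 : 4 * (Q2 : ℝ) * J * δ⁻¹ ≤ K := by
      have h2 : (4 : ℝ) * (Q2 * (J * δ⁻¹)) ≤
          D ^ (κ2 / 4 + (((C1 + n + 1 : ℕ) : ℝ) * σ + ((1 - κ2) + ((1 : ℕ) : ℝ) * σ))) := by
        refine rt5_mul hDp hc4 (by positivity) ?_
        refine rt5_mul hDp (hQ2b.trans (hpow _ (by omega))) (by positivity) ?_
        refine rt5_mul hDp hJ2 hδi0.le ?_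
        have := hpow 1 (by omega)
        rwa [pow_one] at this
      have h3 := hE (C1 + n + 2) (by omega)
      have h4 : 4 * (Q2 : ℝ) * J * δ⁻¹ = (4 : ℝ) * (Q2 * (J * δ⁻¹)) := by ring
      rw [h4]
      refine (rt5_le hD' h2 ?_).trans hK1
      push_cast at h3 ⊢
      nlinarith
    have h5 : 4 * (Q2 : ℝ) * J * δ⁻¹ * δ = 4 * (Q2 : ℝ) * J := by
      field_simp
    calc 4 * (Q2 : ℝ) * J = 4 * (Q2 : ℝ) * J * δ⁻¹ * δ := h5.symm
      _ ≤ K * δ := mul_le_mul_of_nonneg_right h1 hδ.le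
      _ = δ * K := mul_comm _ _
  obtain ⟨h0, hh0, hwin⟩ := rt5_win K Q2 J δ hδ hQ21 hJ1 hQJ
    (fun h : ℕ => e (∑ d ∈ Icc 1 (n + 1), w d * ((M : ℝ) * (h : ℝ) + B) ^ d))
    (fun _ => (norm_e _).le) h
  -- splitting off the top term
  have hsplit : ∀ j : ℕ, e (∑ d ∈ Icc 1 (n + 1), w d * ((M : ℝ) * ((h0 + Q2 * j : ℕ) : ℝ) + B) ^ d) =
      e (∑ d ∈ Icc 1 n, w d * (((M * Q2 : ℕ) : ℝ) * (j : ℝ) + ((M * h0 + B : ℕ) : ℝ)) ^ d) *
      e (w (n + 1) * (((M * h0 + B + M * Q2 * j : ℕ) : ℝ)) ^ (n + 1)) := by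
    intro j
    rw [← e_add, sum_Icc_succ_top (by omega)]
    congr 2
    · refine sum_congr rfl fun d _ => ?_
      push_cast
      congr 2
      ring
    · push_cast
      congr 2
      ring
  have hwin' : δ / 2 ≤ ‖𝔼 j ∈ range J,
      e (∑ d ∈ Icc 1 n, w d * (((M * Q2 : ℕ) : ℝ) * (j : ℝ) + ((M * h0 + B : ℕ) : ℝ)) ^ d) *
      e (w (n + 1) * (((M * h0 + B + M * Q2 * j : ℕ) : ℝ)) ^ (n + 1))‖ := by
    refine hwin.trans (le_of_eq ?_)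
    congr 1
    exact expect_congr rfl fun j _ => hsplit j
  -- the size of the base points
  have hZ : ∀ j : ℕ, j < J → ((M * h0 + B + M * Q2 * j : ℕ) : ℝ) ≤ 2 * (δ⁻¹ * D) := by
    intro j hj
    have h1 : h0 + Q2 * j ≤ K := by
      have : Q2 * j ≤ Q2 * J := Nat.mul_le_mul_left _ hj.le
      omega
    have h2 : ((h0 + Q2 * j : ℕ) : ℝ) ≤ D := le_trans (by exact_mod_cast h1) hK2
    have h3 : ((M * h0 + B + M * Q2 * j : ℕ) : ℝ) = (M : ℝ) * ((h0 + Q2 * j : ℕ) : ℝ) + B := by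
      push_cast; ring
    rw [h3]
    have h4 : (M : ℝ) * ((h0 + Q2 * j : ℕ) : ℝ) ≤ δ⁻¹ * D :=
      mul_le_mul hM2 h2 (Nat.cast_nonneg _) hδi0.le
    linarith
  have hη : ∀ j < J, ∃ k : ℤ, |w (n + 1) * (((M * h0 + B + M * Q2 * j : ℕ) : ℝ)) ^ (n + 1) -
      w (n + 1) * (((M * h0 + B : ℕ) : ℝ)) ^ (n + 1) - k| ≤ δ / (8 * Real.pi) := by
    intro j hj
    obtain ⟨k, hk⟩ := rt5_top (n + 1) (w (n + 1)) θ A Q2 (M * h0 + B) (M * h0 + B + M * Q2 * j)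
      hQ21 (by rw [hθ]; ring) ⟨(M : ℤ) * j, by push_cast; ring⟩
    refine ⟨k, ?_⟩
    rw [hk, abs_mul]
    have hpd := rt5_powdiff n (x := ((M * h0 + B : ℕ) : ℝ))
      (y := ((M * h0 + B + M * Q2 * j : ℕ) : ℝ)) (Z := 2 * (δ⁻¹ * D)) (Nat.cast_nonneg _)
      (by exact_mod_cast Nat.le_add_right _ _) (hZ j hj)
    have hjJ : (j : ℝ) ≤ J := by exact_mod_cast hj.le
    have h1 : ((M * h0 + B + M * Q2 * j : ℕ) : ℝ) - ((M * h0 + B : ℕ) : ℝ) = M * Q2 * j := by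
      push_cast; ring
    rw [h1] at hpd
    have h2 : |θ / (Q2 : ℝ)| = |θ| / Q2 := by
      rw [abs_div, Nat.abs_cast]
    rw [h2]
    calc |θ| / Q2 * |((M * h0 + B + M * Q2 * j : ℕ) : ℝ) ^ (n + 1) -
            ((M * h0 + B : ℕ) : ℝ) ^ (n + 1)|
        ≤ |θ| / Q2 * ((n + 1) * (M * Q2 * j) * (2 * (δ⁻¹ * D)) ^ n) :=
          mul_le_mul_of_nonneg_left hpd (by positivity)
      _ = (n + 1) * 2 ^ n * (|θ| * (M * (j * (δ⁻¹ ^ n * D ^ n)))) := by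
          rw [mul_pow, mul_pow]
          field_simp
      _ ≤ (n + 1) * 2 ^ n * (|θ| * (δ⁻¹ * (J * (δ⁻¹ ^ n * D ^ n)))) := by
          gcongr
      _ ≤ δ / (8 * Real.pi) := by
          have h3 : |θ| * (δ⁻¹ * (J * (δ⁻¹ ^ n * D ^ n))) ≤
              D ^ (((C1 : ℝ) * σ + -((n + 1) * (1 - κ0))) + (((1 : ℕ) : ℝ) * σ + ((1 - κ2) +
                ((n : ℝ) * σ + (n : ℝ))))) := by
            refine rt5_mul hDp hθD (by positivity) ?_
            refine rt5_mul hDp (by have := hpow 1 (by omega); rwa [pow_one] at this)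
              (by positivity) ?_
            refine rt5_mul hDp hJ2 (by positivity) ?_
            refine rt5_mul hDp (hpow n (by omega)) (by positivity) ?_
            rw [Real.rpow_natCast]
          have h4 := hE (C1 + n + 2) (by omega)
          have h5 : (8 * Real.pi * (n + 1) * 2 ^ n) * ((|θ| * (δ⁻¹ * (J * (δ⁻¹ ^ n * D ^ n)))) *
              δ⁻¹) ≤ D ^ (κ2 / 4 + ((((C1 : ℝ) * σ + -((n + 1) * (1 - κ0))) +
                (((1 : ℕ) : ℝ) * σ + ((1 - κ2) + ((n : ℝ) * σ + (n : ℝ))))) +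
                ((1 : ℕ) : ℝ) * σ)) := by
            refine rt5_mul hDp hc8 (by positivity) ?_
            refine rt5_mul hDp h3 (by positivity) ?_
            have := hpow 1 (by omega); rwa [pow_one] at this
          have h6 : (8 * Real.pi * (n + 1) * 2 ^ n) * ((|θ| * (δ⁻¹ * (J * (δ⁻¹ ^ n * D ^ n)))) *
              δ⁻¹) ≤ 1 := by
            have := rt5_le hD' h5 (b := 0) (by push_cast at h4 ⊢; nlinarith)
            rwa [Real.rpow_zero] at this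
          have h7 : (n + 1) * 2 ^ n * (|θ| * (δ⁻¹ * (J * (δ⁻¹ ^ n * D ^ n)))) =
              ((8 * Real.pi * (n + 1) * 2 ^ n) * ((|θ| * (δ⁻¹ * (J * (δ⁻¹ ^ n * D ^ n)))) *
              δ⁻¹)) * (δ / (8 * Real.pi)) := by
            field_simp
          rw [h7]
          calc _ ≤ 1 * (δ / (8 * Real.pi)) := mul_le_mul_of_nonneg_right h6 (by positivity)
            _ = δ / (8 * Real.pi) := one_mul _
  have hdrop := rt5_drop J
    (fun j => e (∑ d ∈ Icc 1 n, w d * (((M * Q2 : ℕ) : ℝ) * (j : ℝ) + ((M * h0 + B : ℕ) : ℝ)) ^ d))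
    (fun _ => (norm_e _).le)
    (fun j => w (n + 1) * (((M * h0 + B + M * Q2 * j : ℕ) : ℝ)) ^ (n + 1))
    (w (n + 1) * (((M * h0 + B : ℕ) : ℝ)) ^ (n + 1)) (δ / (8 * Real.pi)) (by positivity) hη
  have hlow : δ / 4 ≤ ‖𝔼 j ∈ range J,
      e (∑ d ∈ Icc 1 n, w d * (((M * Q2 : ℕ) : ℝ) * (j : ℝ) + ((M * h0 + B : ℕ) : ℝ)) ^ d)‖ := by
    have h1 : 2 * Real.pi * (δ / (8 * Real.pi)) = δ / 4 := by
      field_simp
      norm_num
    rw [h1] at hdrop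
    linarith
  -- the induction hypothesis
  have hδ'4 : δ ^ C2 ≤ δ / 4 := by
    have h1 : δ ^ C2 = δ ^ (C1 + n + 2) * δ := by rw [hC2]; ring
    have h2 : δ ^ (C1 + n + 2) ≤ δ ^ 2 :=
      pow_le_pow_of_le_one hδ.le (by linarith) (by omega)
    have h3 : δ ^ 2 ≤ 1 / 4 := by nlinarith
    rw [h1]
    nlinarith
  have hinv : (δ ^ C2)⁻¹ = δ⁻¹ ^ C2 := (inv_pow δ C2).symm
  have hMQ : (M : ℝ) * Q2 ≤ δ⁻¹ ^ C2 := by
    have h1 : δ⁻¹ ^ C2 = δ⁻¹ * δ⁻¹ ^ (C1 + n + 1) * δ⁻¹ := by rw [hC2]; ring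
    have h2 : (M : ℝ) * Q2 ≤ δ⁻¹ * δ⁻¹ ^ (C1 + n + 1) :=
      mul_le_mul hM2 hQ2b (by positivity) hδi0.le
    rw [h1]
    have h3 : 0 ≤ δ⁻¹ * δ⁻¹ ^ (C1 + n + 1) := by positivity
    nlinarith
  obtain ⟨q2, hq21, hq2b, hq2d⟩ := IH D hDD0 (δ ^ C2) (by
      have h1 := hpow C2 (by
        rw [hW]
        have : C2 * (C' + 1) = C2 * C' + C2 := by ring
        omega)
      have h2 := hE C2 (by
        rw [hW]
        have : C2 * (C' + 1) = C2 * C' + C2 := by ring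
        omega)
      have h3 : δ⁻¹ ^ C2 ≤ D ^ σ' := rt5_le hD' h1 (by linarith)
      have h4 : (D ^ σ')⁻¹ ≤ (δ⁻¹ ^ C2)⁻¹ := inv_anti₀ (by positivity) h3
      rw [inv_pow, inv_inv] at h4
      rwa [Real.rpow_neg hDp.le]) (hδ'4.trans (by linarith)) (M * Q2) (M * h0 + B) J
    (Nat.one_le_iff_ne_zero.mpr (by
      have : 0 < M * Q2 := Nat.mul_pos (by omega) (by omega)
      omega))
    (by rw [hinv]; push_cast; exact hMQ)
    (by
      rw [hinv]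
      have h1 := hZ 0 (by omega)
      have h2 : ((M * h0 + B + M * Q2 * 0 : ℕ) : ℝ) = ((M * h0 + B : ℕ) : ℝ) := by simp
      rw [h2] at h1
      have h3 : δ⁻¹ ^ 2 ≤ δ⁻¹ ^ C2 := pow_le_pow_right₀ hδi1 (by omega)
      have h4 : 2 * δ⁻¹ ≤ δ⁻¹ ^ 2 := by nlinarith
      nlinarith)
    (by
      have h1 : D ^ (1 - κ0') ≤ D ^ (1 - 2 * κ2) :=
        Real.rpow_le_rpow_of_exponent_le hD' (by linarith)
      have h2 : (2 : ℝ) * D ^ (1 - 2 * κ2) ≤ D ^ (κ2 + (1 - 2 * κ2)) := by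
        refine rt5_mul hDp ?_ (Real.rpow_nonneg hDp.le _) le_rfl
        exact rt5_le hD' (by linarith) (show κ2 / 4 ≤ κ2 by linarith)
      have h3 : κ2 + (1 - 2 * κ2) = 1 - κ2 := by ring
      rw [h3] at h2
      linarith)
    (by
      have := rt5_le hD' hJ2 (b := 1) (by linarith)
      rwa [Real.rpow_one] at this) w (hδ'4.trans hlow)
  rw [hinv, ← pow_mul] at hq2b
  refine ⟨Q2 * q2, Nat.one_le_iff_ne_zero.mpr (by
      have : 0 < Q2 * q2 := Nat.mul_pos (by omega) (by omega)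
      omega), ?_, ?_⟩
  · push_cast
    rw [hC, pow_add]
    exact mul_le_mul hQ2b hq2b (by positivity) (by positivity)
  · intro d hd
    rw [mem_Icc] at hd
    rcases Nat.lt_or_ge d (n + 1) with hdn | hdn
    · have h1 := hq2d d (mem_Icc.mpr ⟨hd.1, by omega⟩)
      have h2 : dint (((Q2 * q2 : ℕ) : ℝ) * w d) ≤ Q2 * dint (q2 * w d) := by
        have := dint_mul_le Q2 ((q2 : ℝ) * w d)
        have h3 : (Q2 : ℝ) * ((q2 : ℝ) * w d) = ((Q2 * q2 : ℕ) : ℝ) * w d := by push_cast; ring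
        rwa [h3] at this
      have h3 : (Q2 : ℝ) * dint (q2 * w d) ≤ D ^ (((C1 + n + 1 : ℕ) : ℝ) * σ + (κ / 2 - d)) :=
        rt5_mul hDp (hQ2b.trans (hpow _ (by omega))) (dint_nonneg _) h1
      have h4 := hE (C1 + n + 1) (by omega)
      refine h2.trans (rt5_le hD' h3 ?_)
      linarith
    · have hdn' : d = n + 1 := by omega
      subst hdn'
      have h1 : dint (((Q2 * q2 : ℕ) : ℝ) * w (n + 1)) ≤ q2 * |θ| := by
        have h2 := dint_mul_le q2 ((Q2 : ℝ) * w (n + 1))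
        have h3 : (q2 : ℝ) * ((Q2 : ℝ) * w (n + 1)) = ((Q2 * q2 : ℕ) : ℝ) * w (n + 1) := by
          push_cast; ring
        rw [h3] at h2
        have h4 : dint ((Q2 : ℝ) * w (n + 1)) = |θ| := by
          unfold dint; rw [hθ, hA]
        rwa [h4] at h2
      have h2 : (q2 : ℝ) * |θ| ≤ D ^ (((C2 * C' : ℕ) : ℝ) * σ +
          ((C1 : ℝ) * σ + -((n + 1) * (1 - κ0)))) := by
        refine rt5_mul hDp (hq2b.trans (hpow _ (by
          rw [hW]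
          have : C2 * (C' + 1) = C2 * C' + C2 := by ring
          omega))) (abs_nonneg _) hθD
      have h4 := hE (C2 * C' + C1) (by
        rw [hW]
        have : C2 * (C' + 1) = C2 * C' + C2 := by ring
        omega)
      refine h1.trans (rt5_le hD' h2 ?_)
      push_cast at h4 ⊢
      nlinarith

theorem rt5PL_all (hWeyl : rt5Weyl) (n : ℕ) : rt5PL n := by
  induction n with
  | zero => exact rt5PL_zero
  | succ n ih => exact rt5PL_succ hWeyl n ih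

/-! ### the non-natural exponents -/

/-- Lipschitz bound of `x ^ c` on `[1,5]` -/
theorem rt5_lip {c x y : ℝ} (hc : 0 < c) (hx : 1 ≤ x) (hx5 : x ≤ 5) (hy : 1 ≤ y) (hy5 : y ≤ 5) :
    |y ^ c - x ^ c| ≤ c * 5 ^ c * |y - x| := by
  have h := (convex_Icc (1 : ℝ) 5).norm_image_sub_le_of_norm_hasDerivWithin_le
    (f := fun t : ℝ => t ^ c) (f' := fun t => c * t ^ (c - 1)) (C := c * 5 ^ c) (x := x) (y := y)
    (fun t ht => (Real.hasDerivAt_rpow_const (Or.inl (by linarith [ht.1]))).hasDerivWithinAt)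
    (fun t ht => by
      have ht1 : 1 ≤ t := ht.1
      have ht5 : t ≤ 5 := ht.2
      have h1 : 0 ≤ t ^ (c - 1) := Real.rpow_nonneg (by linarith) _
      rw [Real.norm_eq_abs, abs_of_nonneg (by positivity)]
      refine mul_le_mul_of_nonneg_left ?_ hc.le
      calc t ^ (c - 1) ≤ t ^ c := Real.rpow_le_rpow_of_exponent_le ht1 (by linarith)
        _ ≤ 5 ^ c := Real.rpow_le_rpow (by linarith) ht5 hc.le)
    ⟨hx, hx5⟩ ⟨hy, hy5⟩
  simpa [Real.norm_eq_abs] using h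

theorem rt5_nonnat (hES : ES0) {m : ℕ} (c : Fin m → ℝ) (hc : StrictMono c) (hc0 : ∀ i, 0 < c i)
    (a ε : ℝ) (hε : 0 < ε) :
    ∃ x0 : ℝ, 0 < x0 ∧ ∃ σ : ℝ, 0 < σ ∧ ∃ D0 : ℝ, 1 < D0 ∧ ∀ D : ℝ, D0 ≤ D →
    ∀ ρ : ℝ, 0 ≤ ρ → ρ ≤ 1 → ∀ δ : ℝ, D ^ (-σ) ≤ δ → δ ≤ 1 / 2 →
    ∀ v : Fin m → ℝ, (∀ i, |v i| ≤ D ^ a) →
    ∀ q k K : ℕ, 1 ≤ q → (q : ℝ) ≤ δ⁻¹ → D ≤ k → (k : ℝ) ≤ 3 * D → D ^ (1 - x0) ≤ K →
    (q : ℝ) * K ≤ D →
    δ ≤ ‖𝔼 j ∈ range K, e (∑ i, v i * ((((k + q * j : ℕ) : ℝ) + ρ) / D) ^ (c i))‖ →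
    ∀ i, ¬ IsN (c i) → |v i| ≤ D ^ ε := by
  obtain ⟨x0', hx0', σ', hσ', D0', hES'⟩ := es_mixed hES c hc.injective hc0 0 8 (2 * |a|) (ε / 2)
    (by norm_num) (by linarith)
  obtain ⟨D1, hD11, hD1⟩ := rt5_big D0' (1 / 2) (by norm_num)
  obtain ⟨D2, hD21, hD2⟩ := rt5_big 2 (1 / 4) (by norm_num)
  obtain ⟨D3, hD31, hD3⟩ := rt5_big (∑ i, (2 : ℝ) ^ (c i)) (ε / 2) (by linarith)
  refine ⟨min x0' (1 / 2), lt_min hx0' (by norm_num), min (σ' / 4) (1 / 4),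
    lt_min (by linarith) (by norm_num), max D1 (max D2 D3), lt_of_lt_of_le hD11 (le_max_left _ _),
    ?_⟩
  intro D hDD ρ hρ0 hρ1 δ hδ1 hδ2 v hv q k K hq hqδ hk1 hk2 hK1 hK2 h i hi
  have hDD1 : D1 ≤ D := (le_max_left _ _).trans hDD
  have hDD2 : D2 ≤ D := ((le_max_left _ _).trans (le_max_right _ _)).trans hDD
  have hDD3 : D3 ≤ D := ((le_max_right _ _).trans (le_max_right _ _)).trans hDD
  have hD : 1 < D := lt_of_lt_of_le hD11 hDD1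
  have hDp : 0 < D := by linarith
  have hδ : 0 < δ := lt_of_lt_of_le (Real.rpow_pos_of_pos hDp _) hδ1
  by_contra hcon
  rw [not_le] at hcon
  have hq1 : (1 : ℝ) ≤ (q : ℝ) := by exact_mod_cast hq
  have hq0 : (0 : ℝ) < (q : ℝ) := by linarith
  have hqD : (q : ℝ) ≤ D ^ (1 / 4 : ℝ) := by
    have h1 := rt5_inv hDp hδ1 1
    rw [pow_one] at h1
    refine rt5_le hD.le (hqδ.trans h1) ?_
    push_cast
    linarith [min_le_right (σ' / 4) (1 / 4 : ℝ)]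
  obtain ⟨D', hD'⟩ : ∃ D' : ℝ, D' = D / (2 * q) := ⟨_, rfl⟩
  have hD'h : D ^ (1 / 2 : ℝ) ≤ D' := by
    rw [hD', le_div_iff₀ (by positivity)]
    have h1 : (2 : ℝ) * (q * D ^ (1 / 2 : ℝ)) ≤ D ^ ((1 / 4 : ℝ) + (1 / 4 + 1 / 2)) :=
      rt5_mul hDp (hD2 D hDD2) (by positivity) (rt5_mul hDp hqD (by positivity) le_rfl)
    norm_num at h1
    linarith
  have hDh1 : 1 ≤ D ^ (1 / 2 : ℝ) := Real.one_le_rpow hD.le (by norm_num)
  have hD'1 : 1 ≤ D' := hDh1.trans hD'h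
  have hD'p : 0 < D' := by linarith
  have hD'D : D' ≤ D := by
    rw [hD', div_le_iff₀ (by positivity)]
    nlinarith
  have h2D' : 2 * q * D' = D := by
    rw [hD']; field_simp
  -- the residue class
  obtain ⟨u0, hu0⟩ : ∃ u0 : ℕ, u0 = k / q := ⟨_, rfl⟩
  obtain ⟨r0, hr0⟩ : ∃ r0 : ℕ, r0 = k % q := ⟨_, rfl⟩
  have hk : q * u0 + r0 = k := by rw [hu0, hr0]; exact Nat.div_add_mod k q
  have hr0q : r0 < q := by rw [hr0]; exact Nat.mod_lt _ (by omega)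
  have hkr : (q : ℝ) * u0 + r0 = k := by exact_mod_cast hk
  have hr0q' : (r0 : ℝ) + 1 ≤ q := by exact_mod_cast hr0q
  have hr00 : (0 : ℝ) ≤ r0 := Nat.cast_nonneg _
  have key := hES' D' ((hD1 D hDD1).trans hD'h) ((r0 + ρ) / q) (by positivity)
    (by rw [div_le_one hq0]; linarith) (fun i => v i * 2 ^ (-c i))
    (fun i _ => by
      have h1 : (2 : ℝ) ^ (-c i) ≤ 1 := Real.rpow_le_one_of_one_le_of_nonpos (by norm_num)
        (by linarith [hc0 i])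
      have h0 : 0 ≤ (2 : ℝ) ^ (-c i) := Real.rpow_nonneg (by norm_num) _
      rw [abs_mul, abs_of_nonneg h0]
      calc |v i| * 2 ^ (-c i) ≤ |v i| * 1 := mul_le_mul_of_nonneg_left h1 (abs_nonneg _)
        _ ≤ D ^ a := by rw [mul_one]; exact hv i
        _ ≤ D ^ |a| := Real.rpow_le_rpow_of_exponent_le hD.le (le_abs_self a)
        _ = (D ^ (1 / 2 : ℝ)) ^ (2 * |a|) := by
          rw [← Real.rpow_mul hDp.le]
          congr 1
          ring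
        _ ≤ D' ^ (2 * |a|) := Real.rpow_le_rpow (by positivity) hD'h (by positivity))
    ⟨i, hi, by
      have h0 : 0 < (2 : ℝ) ^ (-c i) := Real.rpow_pos_of_pos (by norm_num) _
      rw [abs_mul, abs_of_pos h0]
      have h1 : (2 : ℝ) ^ (c i) ≤ D ^ (ε / 2) :=
        (Finset.single_le_sum (f := fun i => (2 : ℝ) ^ (c i))
          (fun i _ => Real.rpow_nonneg (by norm_num) _) (mem_univ i)).trans (hD3 D hDD3)
      have h2 : D ^ ε = D ^ (ε / 2) * D ^ (ε / 2) := by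
        rw [← Real.rpow_add hDp]; congr 1; ring
      have h3 : (2 : ℝ) ^ (c i) * 2 ^ (-c i) = 1 := by
        rw [← Real.rpow_add (by norm_num)]; simp
      calc D' ^ (ε / 2) ≤ D ^ (ε / 2) := Real.rpow_le_rpow hD'p.le hD'D (by linarith)
        _ = D ^ (ε / 2) * ((2 : ℝ) ^ (c i) * 2 ^ (-c i)) := by rw [h3, mul_one]
        _ ≤ D ^ (ε / 2) * (D ^ (ε / 2) * 2 ^ (-c i)) := by gcongr
        _ = D ^ ε * 2 ^ (-c i) := by rw [h2]; ring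
        _ ≤ |v i| * 2 ^ (-c i) := mul_le_mul_of_nonneg_right hcon.le h0.le⟩
    0 (by simp) u0 K (by
      have h1 : (q : ℝ) * (2 * D') ≤ q * (u0 + 1) := by nlinarith
      have h2 : 2 * D' ≤ u0 + 1 := le_of_mul_le_mul_left h1 hq0
      linarith) (by
      have h1 : (q : ℝ) * (u0 + K) ≤ q * (8 * D') := by nlinarith
      exact le_of_mul_le_mul_left h1 hq0) (by
      calc D' ^ (1 - x0') ≤ D' ^ (1 - min x0' (1 / 2)) :=
            Real.rpow_le_rpow_of_exponent_le hD'1 (by linarith [min_le_left x0' (1 / 2 : ℝ)])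
        _ ≤ D ^ (1 - min x0' (1 / 2)) := Real.rpow_le_rpow hD'p.le hD'D
            (by linarith [min_le_right x0' (1 / 2 : ℝ)])
        _ ≤ K := hK1)
  have hsame : 𝔼 k' ∈ Ico u0 (u0 + K), e (∑ i, v i * 2 ^ (-c i) *
      (((k' : ℝ) + (r0 + ρ) / q) / D') ^ (c i) + (0 : Polynomial ℝ).eval (k' : ℝ)) =
      𝔼 j ∈ range K, e (∑ i, v i * ((((k + q * j : ℕ) : ℝ) + ρ) / D) ^ (c i)) := by
    rw [expect_eq_sum_div_card, expect_eq_sum_div_card, Nat.card_Ico, card_range,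
      sum_Ico_eq_sum_range]
    have e1 : u0 + K - u0 = K := by omega
    rw [e1]
    congr 1
    refine sum_congr rfl fun j _ => ?_
    congr 1
    rw [Polynomial.eval_zero, add_zero]
    refine sum_congr rfl fun i _ => ?_
    have e2 : (((u0 + j : ℕ) : ℝ) + (r0 + ρ) / q) / D' =
        2 * ((((k + q * j : ℕ) : ℝ) + ρ) / D) := by
      rw [← h2D']
      push_cast
      rw [← hkr]
      field_simp
      ring
    have ht : 0 ≤ ((((k + q * j : ℕ) : ℝ) + ρ) / D) := by positivity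
    rw [e2, Real.mul_rpow (by norm_num) ht]
    have h3 : (2 : ℝ) ^ (-c i) * 2 ^ (c i) = 1 := by
      rw [← Real.rpow_add (by norm_num)]; simp
    calc v i * 2 ^ (-c i) * (2 ^ (c i) * ((((k + q * j : ℕ) : ℝ) + ρ) / D) ^ (c i)) =
          v i * ((2 : ℝ) ^ (-c i) * 2 ^ (c i)) * ((((k + q * j : ℕ) : ℝ) + ρ) / D) ^ (c i) := by ring
      _ = _ := by rw [h3, mul_one]
  rw [hsame] at key
  have h4 : D' ^ (-σ') ≤ D ^ (-(σ' / 2)) := by
    calc D' ^ (-σ') ≤ (D ^ (1 / 2 : ℝ)) ^ (-σ') :=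
          Real.rpow_le_rpow_of_nonpos (by positivity) hD'h (by linarith)
      _ = D ^ (-(σ' / 2)) := by
          rw [← Real.rpow_mul hDp.le]
          congr 1
          ring
  have h5 : D ^ (-(σ' / 2)) < D ^ (-min (σ' / 4) (1 / 4)) :=
    Real.rpow_lt_rpow_of_exponent_lt hD (by linarith [min_le_left (σ' / 4) (1 / 4 : ℝ)])
  linarith

/-! ### the main statement -/

theorem rt5_ratl (hWeyl : rt5Weyl) (hES : ES0) {m : ℕ} (c : Fin m → ℝ) (hc : StrictMono c) (hc0 : ∀ i, 0 < c i)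
    (a ε : ℝ) (hε : 0 < ε) :
    ∃ x0 : ℝ, 0 < x0 ∧ ∃ C : ℕ, ∃ σ : ℝ, 0 < σ ∧ ∃ D0 : ℝ, ∀ D : ℝ, D0 ≤ D →
    ∀ ρ : ℝ, 0 ≤ ρ → ρ ≤ 1 → ∀ lam : ℕ, 1 ≤ lam → (∃ r : ℕ, ρ * lam = r) →
    ∀ δ : ℝ, D ^ (-σ) ≤ δ → δ ≤ 1 / 2 → (lam : ℝ) ≤ δ⁻¹ →
    ∀ v : Fin m → ℝ, (∀ i, |v i| ≤ D ^ a) →
    ∀ q k K : ℕ, 1 ≤ q → (q : ℝ) ≤ δ⁻¹ → D ≤ k → (k : ℝ) ≤ 3 * D → D ^ (1 - x0) ≤ K →
    (q : ℝ) * K ≤ D →
    δ ≤ ‖𝔼 j ∈ range K, e (∑ i, v i * ((((k + q * j : ℕ) : ℝ) + ρ) / D) ^ (c i))‖ →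
    (∀ i, ¬ IsN (c i) → |v i| ≤ D ^ ε) ∧
    ∃ q' : ℕ, 1 ≤ q' ∧ (q' : ℝ) ≤ δ⁻¹ ^ C ∧ ∀ (i : Fin m) (d : ℕ), c i = d →
      dint (q' * (v i / (lam * D) ^ d)) ≤ D ^ (ε - d) := by
  classical
  obtain ⟨n, hn⟩ : ∃ n : ℕ, n = ∑ i : Fin m, ⌊c i⌋₊ := ⟨_, rfl⟩
  have hnd : ∀ (i : Fin m) (d : ℕ), c i = d → d ∈ Icc 1 n := by
    intro i d hd
    rw [mem_Icc]
    constructor
    · have h1 := hc0 i
      rw [hd] at h1
      have : 0 < d := by exact_mod_cast h1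
      omega
    · have h1 : ⌊c i⌋₊ = d := by rw [hd, Nat.floor_natCast]
      rw [hn, ← h1]
      exact Finset.single_le_sum (f := fun i => ⌊c i⌋₊) (fun _ _ => Nat.zero_le _) (mem_univ i)
  obtain ⟨κ0, hκ0, C0, σ0, hσ0, D00, hD00, PL⟩ := rt5PL_all hWeyl n ε hε
  obtain ⟨ε', hε', hε'1, hε'2, hε'3⟩ : ∃ ε' : ℝ, 0 < ε' ∧ ε' ≤ ε ∧ ε' ≤ κ0 / 4 ∧ ε' ≤ 1 / 4 :=
    ⟨min ε (min (κ0 / 4) (1 / 4)), lt_min hε (lt_min (by linarith) (by norm_num)), min_le_left _ _,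
      (min_le_right _ _).trans (min_le_left _ _), (min_le_right _ _).trans (min_le_right _ _)⟩
  obtain ⟨x1, hx1, σ1, hσ1, D01, hD01, NN⟩ := rt5_nonnat hES c hc hc0 a ε' hε'
  obtain ⟨Cs, hCs⟩ : ∃ Cs : ℝ, Cs = ∑ i, c i * (5 : ℝ) ^ (c i) := ⟨_, rfl⟩
  have hCs0 : 0 ≤ Cs := by
    rw [hCs]
    exact sum_nonneg fun i _ => mul_nonneg (hc0 i).le (Real.rpow_nonneg (by norm_num) _)
  obtain ⟨D2, hD21, hD2⟩ := rt5_big (4 + 8 * Real.pi * Cs) (ε' / 4) (by linarith)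
  obtain ⟨σ, hσ, hσa, hσb, hσc⟩ : ∃ σ : ℝ, 0 < σ ∧ σ ≤ σ1 ∧ 4 * σ ≤ σ0 ∧ σ ≤ ε' / 4 := by
    refine ⟨min σ1 (min (σ0 / 4) (ε' / 4)), lt_min hσ1 (lt_min (by linarith) (by linarith)),
      min_le_left _ _, ?_, (min_le_right _ _).trans (min_le_right _ _)⟩
    have : min σ1 (min (σ0 / 4) (ε' / 4)) ≤ σ0 / 4 := (min_le_right _ _).trans (min_le_left _ _)
    linarith
  refine ⟨min x1 (ε' / 2), lt_min hx1 (by linarith), 4 * C0, σ, hσ, max (max D00 D01) D2, ?_⟩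
  intro D hDD ρ hρ0 hρ1 lam hlam hr δ hδ1 hδ2 hlamδ v hv q k K hq hqδ hk1 hk2 hK1 hK2 h
  obtain ⟨r, hr⟩ := hr
  have hDD0 : D00 ≤ D := ((le_max_left _ _).trans (le_max_left _ _)).trans hDD
  have hDD1 : D01 ≤ D := ((le_max_right _ _).trans (le_max_left _ _)).trans hDD
  have hDD2 : D2 ≤ D := (le_max_right _ _).trans hDD
  have hD : 1 < D := lt_of_lt_of_le hD21 hDD2
  have hDp : 0 < D := by linarith
  have hδ : 0 < δ := lt_of_lt_of_le (Real.rpow_pos_of_pos hDp _) hδ1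
  have hδi : 2 ≤ δ⁻¹ := by
    rw [le_inv_comm₀ (by norm_num) hδ]; linarith
  have hδi0 : 0 < δ⁻¹ := inv_pos.mpr hδ
  have hδiD : δ⁻¹ ≤ D ^ σ := by
    have := rt5_inv hDp hδ1 1
    rw [pow_one] at this
    simpa using this
  have hbig := hD2 D hDD2
  have hpi : (3 : ℝ) < Real.pi := Real.pi_gt_three
  have hc4 : (4 : ℝ) ≤ D ^ (ε' / 4) := by
    have : 0 ≤ 8 * Real.pi * Cs := by positivity
    linarith
  have hcC : 8 * Real.pi * Cs ≤ D ^ (ε' / 4) := by linarith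
  -- the non-natural exponents
  have hnn : ∀ i, ¬ IsN (c i) → |v i| ≤ D ^ ε' := by
    refine NN D hDD1 ρ hρ0 hρ1 δ ?_ hδ2 v hv q k K hq hqδ hk1 hk2 ?_ hK2 h
    · exact (Real.rpow_le_rpow_of_exponent_le hD.le (by linarith)).trans hδ1
    · exact (Real.rpow_le_rpow_of_exponent_le hD.le
        (by linarith [min_le_left x1 (ε' / 2)])).trans hK1
  refine ⟨fun i hi => (hnn i hi).trans (Real.rpow_le_rpow_of_exponent_le hD.le hε'1), ?_⟩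
  -- the window
  obtain ⟨hJ1, hJ2, hJ3⟩ := rt5_floor (x := D ^ (1 - 2 * ε'))
    (Real.one_le_rpow hD.le (by linarith))
  obtain ⟨J, hJ⟩ : ∃ J : ℕ, J = ⌊D ^ (1 - 2 * ε')⌋₊ := ⟨_, rfl⟩
  rw [← hJ] at hJ1 hJ2 hJ3
  have hJK : 4 * ((1 : ℕ) : ℝ) * J ≤ δ * K := by
    have h2 : (4 : ℝ) * (J * δ⁻¹) ≤ D ^ (ε' / 4 + ((1 - 2 * ε') + σ)) :=
      rt5_mul hDp hc4 (by positivity) (rt5_mul hDp hJ2 hδi0.le hδiD)
    have h3 : (4 : ℝ) * (J * δ⁻¹) ≤ K := by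
      refine (rt5_le hD.le h2 ?_).trans hK1
      linarith [min_le_right x1 (ε' / 2)]
    have h5 : (4 : ℝ) * (J * δ⁻¹) * δ = 4 * J := by
      field_simp
    have h6 : (4 : ℝ) * (J * δ⁻¹) * δ ≤ K * δ := mul_le_mul_of_nonneg_right h3 hδ.le
    push_cast
    linarith
  obtain ⟨j0, hj0, hwin⟩ := rt5_win K 1 J δ hδ le_rfl hJ1 hJK
    (fun j : ℕ => e (∑ i, v i * ((((k + q * j : ℕ) : ℝ) + ρ) / D) ^ (c i)))
    (fun _ => (norm_e _).le) h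
  have hlam1 : (1 : ℝ) ≤ (lam : ℝ) := by exact_mod_cast hlam
  have hlam0 : (0 : ℝ) < (lam : ℝ) := by linarith
  have hq1 : (1 : ℝ) ≤ (q : ℝ) := by exact_mod_cast hq
  -- the point
  obtain ⟨x, hx⟩ : ∃ x : ℕ → ℝ, x = fun j => (((k + q * (j0 + 1 * j) : ℕ) : ℝ) + ρ) / D :=
    ⟨_, rfl⟩
  have hxj : ∀ j : ℕ, x j = (((k + q * (j0 + 1 * j) : ℕ) : ℝ) + ρ) / D := fun j => by rw [hx]
  have hx1' : ∀ j : ℕ, 1 ≤ x j := by
    intro j
    rw [hxj, le_div_iff₀ hDp]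
    push_cast
    have : (0 : ℝ) ≤ (q : ℝ) * (j0 + 1 * j) := by positivity
    linarith
  have hKr : ∀ j : ℕ, j ≤ J → (q : ℝ) * (j0 + 1 * j) ≤ D := by
    intro j hj
    have h1 : j0 + 1 * j ≤ K := by omega
    have h2 : ((j0 + 1 * j : ℕ) : ℝ) ≤ K := by exact_mod_cast h1
    push_cast at h2
    refine le_trans ?_ hK2
    have : (0 : ℝ) ≤ q := by linarith
    nlinarith
  have hx5 : ∀ j : ℕ, j ≤ J → x j ≤ 5 := by
    intro j hj
    rw [hxj, div_le_iff₀ hDp]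
    push_cast
    have := hKr j hj
    linarith
  have hxdiff : ∀ j : ℕ, j < J → |x j - x 0| ≤ δ⁻¹ * (D ^ (1 - 2 * ε') * D ^ (-1 : ℝ)) := by
    intro j hj
    have h1 : x j - x 0 = q * j * D ^ (-1 : ℝ) := by
      rw [hxj, hxj, Real.rpow_neg_one]
      push_cast
      field_simp
      ring
    rw [h1, abs_of_nonneg (by positivity)]
    have h2 : (j : ℝ) ≤ D ^ (1 - 2 * ε') := le_trans (by exact_mod_cast hj.le) hJ2
    have h3 : 0 ≤ D ^ (-1 : ℝ) := Real.rpow_nonneg hDp.le _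
    calc (q : ℝ) * j * D ^ (-1 : ℝ) ≤ δ⁻¹ * D ^ (1 - 2 * ε') * D ^ (-1 : ℝ) := by
          gcongr
      _ = _ := by ring
  -- natural and non-natural parts
  obtain ⟨w, hw⟩ : ∃ w : ℕ → ℝ, w = fun d : ℕ => ∑ i ∈ univ.filter (fun i => c i = (d : ℝ)),
      v i / (lam * D) ^ d := ⟨_, rfl⟩
  have hwi : ∀ (i : Fin m) (d : ℕ), c i = d → w d = v i / (lam * D) ^ d := by
    intro i d hd
    have h1 : univ.filter (fun i' => c i' = (d : ℝ)) = {i} := by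
      ext i'
      simp only [mem_filter, mem_univ, true_and, mem_singleton]
      constructor
      · intro h'
        exact hc.injective (h'.trans hd.symm)
      · intro h'
        rw [h']; exact hd
    rw [hw]
    simp only
    rw [h1, sum_singleton]
  have hnat : ∀ j : ℕ, ∑ d ∈ Icc 1 n, w d *
      (((lam * q : ℕ) : ℝ) * (j : ℝ) + ((lam * (k + q * j0) + r : ℕ) : ℝ)) ^ d =
      ∑ i ∈ univ.filter (fun i => IsN (c i)), v i * (x j) ^ (c i) := by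
    intro j
    have hY : ((lam * q : ℕ) : ℝ) * (j : ℝ) + ((lam * (k + q * j0) + r : ℕ) : ℝ) =
        lam * D * x j := by
      rw [hxj]
      push_cast
      rw [← hr]
      field_simp
      ring
    rw [hY]
    have h1 : ∀ d ∈ Icc 1 n, w d * (lam * D * x j) ^ d =
        ∑ i, if c i = (d : ℝ) then v i * (x j) ^ (c i) else 0 := by
      intro d _
      rw [hw]
      simp only
      rw [sum_mul, sum_filter]
      refine sum_congr rfl fun i _ => ?_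
      split_ifs with hid
      · rw [hid, Real.rpow_natCast, mul_pow (lam * D) (x j) d]
        have : (lam * D) ^ d ≠ 0 := by positivity
        field_simp
      · rfl
    rw [sum_congr rfl h1, sum_comm, sum_filter]
    refine sum_congr rfl fun i _ => ?_
    by_cases hi : IsN (c i)
    · rw [if_pos hi]
      obtain ⟨d, hd⟩ := hi
      rw [sum_eq_single_of_mem d (hnd i d hd)]
      · rw [if_pos hd]
      · intro b _ hb
        rw [if_neg]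
        intro h'
        rw [hd] at h'
        exact hb (by exact_mod_cast h'.symm)
    · rw [if_neg hi]
      refine sum_eq_zero fun b _ => ?_
      rw [if_neg]
      intro h'
      exact hi ⟨b, h'⟩
  have hsplit : ∀ j : ℕ, e (∑ i, v i * ((((k + q * (j0 + 1 * j) : ℕ) : ℝ) + ρ) / D) ^ (c i)) =
      e (∑ d ∈ Icc 1 n, w d *
        (((lam * q : ℕ) : ℝ) * (j : ℝ) + ((lam * (k + q * j0) + r : ℕ) : ℝ)) ^ d) *
      e (∑ i ∈ univ.filter (fun i => ¬ IsN (c i)), v i * (x j) ^ (c i)) := by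
    intro j
    rw [← e_add, hnat, sum_filter_add_sum_filter_not, ← hxj]
  have hη : ∀ j < J, ∃ k' : ℤ, |∑ i ∈ univ.filter (fun i => ¬ IsN (c i)), v i * (x j) ^ (c i) -
      ∑ i ∈ univ.filter (fun i => ¬ IsN (c i)), v i * (x 0) ^ (c i) - k'| ≤
        δ / (8 * Real.pi) := by
    intro j hj
    refine ⟨0, ?_⟩
    rw [Int.cast_zero, sub_zero, ← sum_sub_distrib]
    obtain ⟨Δ, hΔ⟩ : ∃ Δ : ℝ, Δ = δ⁻¹ * (D ^ (1 - 2 * ε') * D ^ (-1 : ℝ)) := ⟨_, rfl⟩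
    have hΔ0 : 0 ≤ Δ := by rw [hΔ]; positivity
    have h1 : |∑ i ∈ univ.filter (fun i => ¬ IsN (c i)),
        (v i * (x j) ^ (c i) - v i * (x 0) ^ (c i))| ≤ Cs * (D ^ ε' * Δ) := by
      calc |∑ i ∈ univ.filter (fun i => ¬ IsN (c i)),
            (v i * (x j) ^ (c i) - v i * (x 0) ^ (c i))|
          ≤ ∑ i ∈ univ.filter (fun i => ¬ IsN (c i)),
            |v i * (x j) ^ (c i) - v i * (x 0) ^ (c i)| := abs_sum_le_sum_abs _ _
        _ ≤ ∑ i ∈ univ.filter (fun i => ¬ IsN (c i)), c i * 5 ^ (c i) * (D ^ ε' * Δ) := by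
            refine sum_le_sum fun i hi => ?_
            have hi' : ¬ IsN (c i) := (mem_filter.mp hi).2
            rw [← mul_sub, abs_mul]
            have h2 := rt5_lip (hc0 i) (hx1' 0) (hx5 0 (by omega)) (hx1' j) (hx5 j hj.le)
            have h3 := hxdiff j hj
            rw [← hΔ] at h3
            have h4 : 0 ≤ c i * 5 ^ (c i) :=
              mul_nonneg (hc0 i).le (Real.rpow_nonneg (by norm_num) _)
            calc |v i| * |x j ^ (c i) - x 0 ^ (c i)| ≤ D ^ ε' * (c i * 5 ^ (c i) * Δ) :=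
                  mul_le_mul (hnn i hi') (h2.trans (mul_le_mul_of_nonneg_left h3 h4))
                    (abs_nonneg _) (Real.rpow_nonneg hDp.le _)
              _ = _ := by ring
        _ ≤ ∑ i, c i * 5 ^ (c i) * (D ^ ε' * Δ) := by
            refine sum_le_sum_of_subset_of_nonneg (filter_subset _ _) fun i _ _ => ?_
            have h4 : 0 ≤ c i * 5 ^ (c i) :=
              mul_nonneg (hc0 i).le (Real.rpow_nonneg (by norm_num) _)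
            have h5 : 0 ≤ D ^ ε' := Real.rpow_nonneg hDp.le _
            positivity
        _ = Cs * (D ^ ε' * Δ) := by rw [← sum_mul, hCs]
    refine h1.trans ?_
    have h2 : (8 * Real.pi * Cs) * ((D ^ ε' * Δ) * δ⁻¹) ≤
        D ^ (ε' / 4 + ((ε' + (σ + ((1 - 2 * ε') + -1))) + σ)) := by
      refine rt5_mul hDp hcC (by positivity) ?_
      refine rt5_mul hDp ?_ hδi0.le hδiD
      refine rt5_mul hDp le_rfl hΔ0 ?_
      rw [hΔ]
      refine rt5_mul hDp hδiD (by positivity) ?_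
      exact rt5_mul hDp le_rfl (by positivity) le_rfl
    have h3 : (8 * Real.pi * Cs) * ((D ^ ε' * Δ) * δ⁻¹) ≤ 1 := by
      have := rt5_le hD.le h2 (b := 0) (by linarith)
      rwa [Real.rpow_zero] at this
    have h4 : Cs * (D ^ ε' * Δ) =
        ((8 * Real.pi * Cs) * ((D ^ ε' * Δ) * δ⁻¹)) * (δ / (8 * Real.pi)) := by
      field_simp
    rw [h4]
    calc _ ≤ 1 * (δ / (8 * Real.pi)) := mul_le_mul_of_nonneg_right h3 (by positivity)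
      _ = δ / (8 * Real.pi) := one_mul _
  have hdrop := rt5_drop J
    (fun j => e (∑ d ∈ Icc 1 n, w d *
        (((lam * q : ℕ) : ℝ) * (j : ℝ) + ((lam * (k + q * j0) + r : ℕ) : ℝ)) ^ d))
    (fun _ => (norm_e _).le)
    (fun j => ∑ i ∈ univ.filter (fun i => ¬ IsN (c i)), v i * (x j) ^ (c i))
    (∑ i ∈ univ.filter (fun i => ¬ IsN (c i)), v i * (x 0) ^ (c i)) (δ / (8 * Real.pi))
    (by positivity) hη
  have hlow : δ / 4 ≤ ‖𝔼 j ∈ range J, e (∑ d ∈ Icc 1 n, w d *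
        (((lam * q : ℕ) : ℝ) * (j : ℝ) + ((lam * (k + q * j0) + r : ℕ) : ℝ)) ^ d)‖ := by
    have h1 : 2 * Real.pi * (δ / (8 * Real.pi)) = δ / 4 := by
      field_simp
      norm_num
    have h2 : 𝔼 j ∈ range J, e (∑ i, v i * ((((k + q * (j0 + 1 * j) : ℕ) : ℝ) + ρ) / D) ^ (c i)) =
        𝔼 j ∈ range J, e (∑ d ∈ Icc 1 n, w d *
        (((lam * q : ℕ) : ℝ) * (j : ℝ) + ((lam * (k + q * j0) + r : ℕ) : ℝ)) ^ d) *
      e (∑ i ∈ univ.filter (fun i => ¬ IsN (c i)), v i * (x j) ^ (c i)) :=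
      expect_congr rfl fun j _ => hsplit j
    rw [h1, ← h2] at hdrop
    have h3 : δ / 2 ≤ ‖𝔼 j ∈ range J,
      e (∑ i, v i * ((((k + q * (j0 + 1 * j) : ℕ) : ℝ) + ρ) / D) ^ (c i))‖ := hwin
    linarith
  -- the polynomial part
  have hδ4 : δ ^ 4 ≤ δ / 4 := by
    have h1 : δ ^ 4 = δ ^ 3 * δ := by ring
    have h2 : δ ^ 3 ≤ (1 / 2) ^ 3 := pow_le_pow_left₀ hδ.le hδ2 3
    rw [h1]
    nlinarith
  have hinv : (δ ^ 4)⁻¹ = δ⁻¹ ^ 4 := (inv_pow δ 4).symm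
  have hi2 : 4 ≤ δ⁻¹ ^ 2 := by nlinarith
  have hi3 : 8 ≤ δ⁻¹ ^ 3 := by
    have : δ⁻¹ ^ 3 = δ⁻¹ ^ 2 * δ⁻¹ := by ring
    rw [this]; nlinarith
  obtain ⟨q', hq'1, hq'b, hq'd⟩ := PL D hDD0 (δ ^ 4) (by
      have h1 := rt5_inv hDp hδ1 4
      have h3 : δ⁻¹ ^ 4 ≤ D ^ σ0 := rt5_le hD.le h1 (by push_cast; linarith)
      have h4 : (D ^ σ0)⁻¹ ≤ (δ⁻¹ ^ 4)⁻¹ := inv_anti₀ (by positivity) h3
      rw [inv_pow, inv_inv] at h4
      rwa [Real.rpow_neg hDp.le]) (hδ4.trans (by linarith)) (lam * q) (lam * (k + q * j0) + r) J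
    (Nat.one_le_iff_ne_zero.mpr (by
      have : 0 < lam * q := Nat.mul_pos (by omega) (by omega)
      omega))
    (by
      rw [hinv]
      push_cast
      have h1 : (lam : ℝ) * q ≤ δ⁻¹ * δ⁻¹ := mul_le_mul hlamδ hqδ (by linarith) hδi0.le
      have h2 : δ⁻¹ ^ 4 = δ⁻¹ * δ⁻¹ * δ⁻¹ ^ 2 := by ring
      rw [h2]
      have h3 : 0 ≤ δ⁻¹ * δ⁻¹ := by positivity
      nlinarith)
    (by
      rw [hinv]
      push_cast
      rw [← hr]
      have h1 := hKr 0 (by omega)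
      simp only [Nat.cast_zero, mul_zero, add_zero] at h1
      have h2 : (k : ℝ) + q * j0 + ρ ≤ 5 * D := by linarith
      have h3 : (lam : ℝ) * (k + q * j0) + ρ * lam = lam * (k + q * j0 + ρ) := by ring
      rw [h3]
      have h4 : (lam : ℝ) * (k + q * j0 + ρ) ≤ δ⁻¹ * (5 * D) :=
        mul_le_mul hlamδ h2 (by positivity) hδi0.le
      refine h4.trans ?_
      have h5 : δ⁻¹ ^ 4 * D = δ⁻¹ * (δ⁻¹ ^ 3 * D) := by ring
      rw [h5]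
      refine mul_le_mul_of_nonneg_left ?_ hδi0.le
      nlinarith)
    (by
      have h2 : (2 : ℝ) * D ^ (1 - κ0) ≤ D ^ (ε' / 4 + (1 - κ0)) :=
        rt5_mul hDp (by linarith) (Real.rpow_nonneg hDp.le _) le_rfl
      have h3 := rt5_le hD.le h2 (b := 1 - 2 * ε') (by linarith)
      linarith)
    (by
      have := rt5_le hD.le hJ2 (b := 1) (by linarith)
      rwa [Real.rpow_one] at this) w (hδ4.trans hlow)
  rw [hinv, ← pow_mul] at hq'b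
  refine ⟨q', hq'1, hq'b, ?_⟩
  intro i d hd
  have h1 := hq'd d (hnd i d hd)
  rw [hwi i d hd] at h1
  exact h1

end

end Pool.Agent.Helper67.NX2
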